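import Mathlib
import Pool.Agent.Lib.MP_93db31_nt.Final

set_option autoImplicit false

namespace Pool.Agent.Results.MP_93db31_nt.LinearGaps

/-- Every interval `[N, 5000000 N]` contains an `n` for which the `n × n` matrix with entry `1`
at `(i, j)` (`1 ≤ i, j ≤ n`) when `i + j` is a square, and `0` otherwise, is nonsingular.
(Lean indices run from `0`, so the entry at `i, j` looks at `(i + 1) + (j + 1)`.) -/
theorem result : ∀ N : ℕ, 1 ≤ N → ∃ n : ℕ, N ≤ n ∧ n ≤ 5000000 * N ∧
    Matrix.det (Matrix.of fun i j : Fin n =>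
      if IsSquare ((i : ℕ) + 1 + ((j : ℕ) + 1)) then (1 : ℤ) else 0) ≠ 0 :=
  fun N hN => Pool.Agent.Lib.MP_93db31_nt.gap N hN

end Pool.Agent.Results.MP_93db31_nt.LinearGaps
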